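import Pool.Agent.K3h4.H48.Fam

set_option autoImplicit false

/-!
# The sum `∑ C(4k,2k+1) C(2k,k) / 48^k` modulo `p²`

`at u k = 2 k ∏_{l<2k, l≠k} (2l+1-u) / dn u k`, so that `at 0 k = C(4k,2k+1) C(2k,k) / 48^k`. The sum over `k < p` is an
affine function of `u ∈ p ℤ_p` modulo `p²`, and it is `0` at `u = p` and at `u = 3p`.
-/

namespace Pool.Agent.U697.A48

open Finset Pool.Agent.R439.PL Pool.Agent.R439.PL.S4 Pool.Agent.R488.Tri Pool.Agent.R488.Cub Pool.Agent.K3h4.H48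

/-- product over `l < 2k`, `l ≠ k` -/
def pk (u : ℚ) (k : ℕ) : ℚ := ∏ l ∈ (range (2 * k)).erase k, (2 * (l : ℚ) + 1 - u)

/-- the terms -/
def tm (u : ℚ) (k : ℕ) : ℚ := 2 * (k : ℚ) * pk u k * (dn u k)⁻¹

theorem pk_zero {u : ℚ} {k l : ℕ} (h1 : l < 2 * k) (h2 : l ≠ k) (h3 : 2 * (l : ℚ) + 1 = u) : pk u k = 0 := by
  refine prod_eq_zero (mem_erase.2 ⟨h2, mem_range.2 h1⟩) ?_
  rw [h3, sub_self]

theorem tm_zero {u : ℚ} {k l : ℕ} (h1 : l < 2 * k) (h2 : l ≠ k) (h3 : 2 * (l : ℚ) + 1 = u) : tm u k = 0 := by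
  rw [tm, pk_zero h1 h2 h3]; ring

/-- the low part of the product -/
def Al (u : ℚ) (n : ℕ) : ℚ := ∏ l ∈ range (n + 1), (2 * (l : ℚ) + 1 - u)

/-- the high part of the product -/
def Bh (u : ℚ) (n : ℕ) : ℚ := ∏ l ∈ range n, (2 * ((l + n + 5 : ℕ) : ℚ) + 1 - u)

theorem erase_eq (k : ℕ) (hk : 0 < k) : (range (2 * k)).erase k = range k ∪ (range (k - 1)).image (fun l => k + 1 + l) := by
  ext l
  simp only [mem_erase, mem_range, mem_union, mem_image]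
  constructor
  · rintro ⟨h1, h2⟩
    rcases Nat.lt_or_ge l k with h | h
    · exact Or.inl h
    · exact Or.inr ⟨l - (k + 1), by omega, by omega⟩
  · rintro (h | ⟨a, ha, rfl⟩)
    · exact ⟨by omega, by omega⟩
    · exact ⟨by omega, by omega⟩

theorem pk_split (u : ℚ) (k : ℕ) (hk : 0 < k) : pk u k = (∏ l ∈ range k, (2 * (l : ℚ) + 1 - u)) *
    ∏ l ∈ range (k - 1), (2 * ((k + 1 + l : ℕ) : ℚ) + 1 - u) := by
  rw [pk, erase_eq k hk, prod_union, prod_image]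
  · intro a _ b _ h
    simp only at h
    omega
  · rw [disjoint_left]
    intro a ha hb
    rw [mem_range] at ha
    rw [mem_image] at hb
    obtain ⟨c, _, hc⟩ := hb
    omega

theorem pk_n (u : ℚ) (n : ℕ) : pk u (n + 4) = Al u n * (2 * (n : ℚ) + 3 - u) * (2 * n + 5 - u) * (2 * n + 7 - u) *
    Bh u n * (4 * n + 11 - u) * (4 * n + 13 - u) * (4 * n + 15 - u) := by
  have h1 : ∏ l ∈ range (n + 4), (2 * (l : ℚ) + 1 - u) =
      Al u n * (2 * (n : ℚ) + 3 - u) * (2 * n + 5 - u) * (2 * n + 7 - u) := by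
    rw [show n + 4 = (n + 1) + 1 + 1 + 1 by ring, prod_range_succ, prod_range_succ, prod_range_succ, Al]
    push_cast
    ring
  have h2 : ∏ l ∈ range (n + 3), (2 * ((n + 4 + 1 + l : ℕ) : ℚ) + 1 - u) =
      Bh u n * (4 * n + 11 - u) * (4 * n + 13 - u) * (4 * n + 15 - u) := by
    have h : ∏ l ∈ range n, (2 * ((n + 4 + 1 + l : ℕ) : ℚ) + 1 - u) =
      ∏ l ∈ range n, (2 * ((l + n + 5 : ℕ) : ℚ) + 1 - u) := prod_congr rfl fun l _ => by push_cast; ring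
    rw [show n + 3 = n + 1 + 1 + 1 by ring, prod_range_succ, prod_range_succ, prod_range_succ, h, Bh]
    push_cast
    ring
  rw [pk_split u (n + 4) (by omega), show n + 4 - 1 = n + 3 by omega, h1, h2]
  ring

theorem pk_n6 (u : ℚ) (n : ℕ) : pk (u + 6) (n + 4) = -(u + 5) * (u + 3) * (u + 1) * Al u n * (2 * (n : ℚ) + 5 - u) *
    (2 * n + 7 - u) * (2 * n + 9 - u) * Bh u n := by
  have h1 : ∏ l ∈ range (n + 4), (2 * (l : ℚ) + 1 - (u + 6)) = -(u + 5) * (u + 3) * (u + 1) * Al u n := by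
    rw [show n + 4 = 3 + (n + 1) by ring, prod_range_add, Al]
    have h' : ∏ l ∈ range (n + 1), (2 * ((3 + l : ℕ) : ℚ) + 1 - (u + 6)) =
        ∏ l ∈ range (n + 1), (2 * (l : ℚ) + 1 - u) := prod_congr rfl fun l _ => by push_cast; ring
    rw [h']
    simp only [prod_range_succ, prod_range_zero]
    push_cast
    ring
  have h2 : ∏ l ∈ range (n + 3), (2 * ((n + 4 + 1 + l : ℕ) : ℚ) + 1 - (u + 6)) =
      (2 * (n : ℚ) + 5 - u) * (2 * n + 7 - u) * (2 * n + 9 - u) * Bh u n := by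
    rw [show n + 3 = 3 + n by ring, prod_range_add, Bh]
    have h' : ∏ l ∈ range n, (2 * ((n + 4 + 1 + (3 + l) : ℕ) : ℚ) + 1 - (u + 6)) =
        ∏ l ∈ range n, (2 * ((l + n + 5 : ℕ) : ℚ) + 1 - u) := prod_congr rfl fun l _ => by push_cast; ring
    rw [h']
    simp only [prod_range_succ, prod_range_zero]
    push_cast
    ring
  rw [pk_split (u + 6) (n + 4) (by omega), show n + 4 - 1 = n + 3 by omega, h1, h2]
  ring

theorem Al_succ (u : ℚ) (n : ℕ) : Al u (n + 1) = Al u n * (2 * (n : ℚ) + 3 - u) := by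
  rw [Al, prod_range_succ, ← Al]; push_cast; ring

theorem Bh_succ (u : ℚ) (n : ℕ) : Bh u (n + 1) * (2 * (n : ℚ) + 11 - u) = Bh u n * (4 * n + 11 - u) * (4 * n + 13 - u) := by
  have h1 : Bh u (n + 1) * (2 * (n : ℚ) + 11 - u) = ∏ l ∈ range (n + 2), (2 * ((l + n + 5 : ℕ) : ℚ) + 1 - u) := by
    rw [prod_range_succ', Bh]
    congr 1
    · exact prod_congr rfl fun l _ => by push_cast; ring
    · push_cast; ring
  rw [h1, prod_range_succ, prod_range_succ, Bh]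
  push_cast
  ring

theorem dn_succ (u : ℚ) (k : ℕ) : dn u (k + 1) = dn u k * (4 * (1 + (k : ℚ)) * (3 * (1 + k) - u)) := by
  rw [dn, prod_range_succ, ← dn]

theorem dn_shift (u : ℚ) (k : ℕ) : dn (u + 6) k * ((3 * ((k : ℚ) - 1) - u) * (3 * k - u)) = dn u k * ((u + 3) * u) := by
  induction k with
  | zero => simp [dn]; ring
  | succ k ih =>
    rw [dn_succ, dn_succ]
    push_cast
    linear_combination (4 * (1 + (k : ℚ)) * (3 * (1 + (k : ℚ)) - u)) * ih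

theorem dn_ne {u : ℚ} {k : ℕ} (h : ∀ i < k, 3 * (1 + (i : ℚ)) - u ≠ 0) : dn u k ≠ 0 := by
  rw [dn, prod_ne_zero_iff]
  intro i hi
  have : (1 + (i : ℚ)) ≠ 0 := by positivity
  exact mul_ne_zero (mul_ne_zero (by norm_num) this) (h i (mem_range.1 hi))

/-- the polynomial of the certificate at `k = n + 4` -/
def Pc (u n : ℚ) : ℚ := 4 * (u + 1) * (u + 5) * (n + 3) * (64 * (n + 4) ^ 3 - 84 * (u + 3) * (n + 4) ^ 2 +
  (36 * (u + 3) ^ 2 - 16) * (n + 4) - 5 * (u + 3) ^ 3 + 4 * (u + 3))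

/-- the certificate -/
def Gc (u : ℚ) (n : ℕ) : ℚ := (2 * (n : ℚ) + 9 - u) * Pc u n / 2 * Al u n * Bh u n * (dn u (n + 3))⁻¹

theorem step (u : ℚ) (hu0 : u ≠ 0) (hu3 : u + 3 ≠ 0) (n : ℕ) (h : ∀ i < n + 4, 3 * (1 + (i : ℚ)) - u ≠ 0) :
    4 * u * (u + 3) * tm (u + 6) (n + 4) + (u + 1) * (u + 5) * tm u (n + 4) = Gc u (n + 1) - Gc u n := by
  have hd : dn u (n + 4) ≠ 0 := dn_ne h
  have hd3 : dn u (n + 3) ≠ 0 := dn_ne fun i hi => h i (by omega)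
  have h1 := dn_succ u (n + 3)
  rw [show n + 3 + 1 = n + 4 by ring] at h1
  have hk : (3 * (1 + ((n + 3 : ℕ) : ℚ)) - u) ≠ 0 := h (n + 3) (by omega)
  have hn4 : (1 + ((n + 3 : ℕ) : ℚ)) ≠ 0 := by positivity
  have h2 : (dn u (n + 3))⁻¹ = (dn u (n + 4))⁻¹ * (4 * (1 + ((n + 3 : ℕ) : ℚ)) * (3 * (1 + ((n + 3 : ℕ) : ℚ)) - u)) := by
    rw [h1, mul_inv, mul_assoc, inv_mul_cancel₀ (mul_ne_zero (mul_ne_zero (by norm_num) hn4) hk), mul_one]
  have h3 := dn_shift u (n + 4)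
  have hd6 : (u + 3) * u * (dn (u + 6) (n + 4))⁻¹ = (dn u (n + 4))⁻¹ * ((3 * (((n + 4 : ℕ) : ℚ) - 1) - u) *
      (3 * ((n + 4 : ℕ) : ℚ) - u)) := by
    have h4 : dn (u + 6) (n + 4) ≠ 0 := by
      intro h5
      rw [h5, zero_mul] at h3
      exact mul_ne_zero hd (mul_ne_zero hu3 hu0) h3.symm
    field_simp
    linear_combination -h3
  rw [Gc, Gc, show n + 1 + 3 = n + 4 by ring, h2, Al_succ, tm, tm, pk_n u n, pk_n6 u n]
  have h5 := Bh_succ u n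
  have h6 : (2 * ((n + 1 : ℕ) : ℚ) + 9 - u) * Pc u ((n + 1 : ℕ) : ℚ) / 2 * (Al u n * (2 * (n : ℚ) + 3 - u)) *
      Bh u (n + 1) * (dn u (n + 4))⁻¹ = Pc u ((n + 1 : ℕ) : ℚ) / 2 * (Al u n * (2 * (n : ℚ) + 3 - u)) *
      (Bh u n * (4 * n + 11 - u) * (4 * n + 13 - u)) * (dn u (n + 4))⁻¹ := by
    rw [← h5]; push_cast; ring
  rw [h6]
  have h7 : 4 * u * (u + 3) * (2 * ((n + 4 : ℕ) : ℚ) * (-(u + 5) * (u + 3) * (u + 1) * Al u n * (2 * (n : ℚ) + 5 - u) *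
      (2 * n + 7 - u) * (2 * n + 9 - u) * Bh u n) * (dn (u + 6) (n + 4))⁻¹) =
      4 * (2 * ((n + 4 : ℕ) : ℚ) * (-(u + 5) * (u + 3) * (u + 1) * Al u n * (2 * (n : ℚ) + 5 - u) *
      (2 * n + 7 - u) * (2 * n + 9 - u) * Bh u n)) * ((dn u (n + 4))⁻¹ * ((3 * (((n + 4 : ℕ) : ℚ) - 1) - u) *
      (3 * ((n + 4 : ℕ) : ℚ) - u))) := by
    rw [← hd6]; ring
  rw [h7, Pc, Pc]
  push_cast
  ring

end Pool.Agent.U697.A48
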