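import Pool.Agent.U697.A48

set_option autoImplicit false

/-!
# The two exact evaluations, and the sum modulo `p²`
-/

namespace Pool.Agent.U697.A48

open Finset Pool.Agent.R439.PL Pool.Agent.R439.PL.S4 Pool.Agent.R488.Tri Pool.Agent.R488.Cub Pool.Agent.K3h4.H48

theorem tm_0 (u : ℚ) : tm u 0 = 0 := by simp [tm]

theorem tm_1 (u : ℚ) : tm u 1 = 2 * (1 - u) * (dn u 1)⁻¹ := by
  rw [tm, pk_split u 1 (by norm_num)]
  simp

theorem tm_2 (u : ℚ) : tm u 2 = 4 * ((1 - u) * (3 - u) * (7 - u)) * (dn u 2)⁻¹ := by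
  rw [tm, pk_split u 2 (by norm_num)]
  simp only [prod_range_succ, prod_range_zero]
  norm_num

theorem tm_3 (u : ℚ) : tm u 3 = 6 * ((1 - u) * (3 - u) * (5 - u) * (9 - u) * (11 - u)) * (dn u 3)⁻¹ := by
  rw [tm, pk_split u 3 (by norm_num)]
  simp only [prod_range_succ, prod_range_zero]
  push_cast
  ring

theorem base (u : ℚ) (hu0 : u ≠ 0) (hu3 : u + 3 ≠ 0) (h : ∀ i : ℕ, i < 3 → 3 * (1 + (i : ℚ)) - u ≠ 0) :
    4 * u * (u + 3) * ∑ k ∈ range 4, tm (u + 6) k + (u + 1) * (u + 5) * ∑ k ∈ range 4, tm u k = Gc u 0 := by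
  have h0 : 3 - u ≠ 0 := by simpa using h 0 (by norm_num)
  have h1 : 6 - u ≠ 0 := by
    have := h 1 (by norm_num)
    norm_num at this
    exact this
  have h2 : 9 - u ≠ 0 := by
    have := h 2 (by norm_num)
    norm_num at this
    exact this
  have e1 : ∀ v : ℚ, dn v 1 = 4 * (3 - v) := by
    intro v; rw [dn]; simp
  have e2 : ∀ v : ℚ, dn v 2 = 4 * (3 - v) * (8 * (6 - v)) := by
    intro v; rw [dn_succ v 1, e1]; push_cast; ring
  have e3 : ∀ v : ℚ, dn v 3 = 4 * (3 - v) * (8 * (6 - v)) * (12 * (9 - v)) := by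
    intro v; rw [dn_succ v 2, e2]; push_cast; ring
  have f0 : 3 - (u + 6) ≠ 0 := by
    intro h'; exact hu3 (by linarith)
  have f1 : 6 - (u + 6) ≠ 0 := by
    intro h'; exact hu0 (by linarith)
  have f2 : 9 - (u + 6) ≠ 0 := by
    intro h'; exact h0 (by linarith)
  simp only [sum_range_succ, sum_range_zero, tm_0, tm_1, tm_2, tm_3, zero_add]
  rw [Gc, Al, Bh, Pc, e1, e2, e3, e1, e2, e3]
  simp only [prod_range_succ, prod_range_zero]
  have g0 : u + 3 = -(3 - (u + 6)) := by ring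
  have g1 : u = -(6 - (u + 6)) := by ring
  field_simp
  push_cast
  ring

theorem tele (u : ℚ) (hu0 : u ≠ 0) (hu3 : u + 3 ≠ 0) (n : ℕ) (h : ∀ i : ℕ, i < n + 3 → 3 * (1 + (i : ℚ)) - u ≠ 0) :
    4 * u * (u + 3) * ∑ k ∈ range (n + 4), tm (u + 6) k + (u + 1) * (u + 5) * ∑ k ∈ range (n + 4), tm u k =
      Gc u n := by
  induction n with
  | zero => exact base u hu0 hu3 h
  | succ n ih =>
    rw [show n + 1 + 4 = n + 4 + 1 by ring, sum_range_succ (fun k => tm (u + 6) k) (n + 4),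
      sum_range_succ (fun k => tm u k) (n + 4)]
    have h1 := ih fun i hi => h i (by omega)
    have h2 := step u hu0 hu3 n fun i hi => h i (by omega)
    linear_combination h1 + h2

end Pool.Agent.U697.A48
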