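import Pool.Agent.U697.A48b

set_option autoImplicit false

/-!
# The two exact evaluations, and the sum modulo `p²`
-/

namespace Pool.Agent.U697.A48

open Finset Pool.Agent.R439.PL Pool.Agent.R439.PL.S4 Pool.Agent.R488.Tri Pool.Agent.R488.Cub Pool.Agent.K3h4.H48

theorem stepN (N : ℕ) (hodd : N % 2 = 1) (h3 : N % 3 ≠ 0) (hP : ∀ K, N ≤ K → ∑ k ∈ range K, tm (N : ℚ) k = 0) :
    ∀ K, N + 6 ≤ K → ∑ k ∈ range K, tm ((N + 6 : ℕ) : ℚ) k = 0 := by
  intro K hK
  obtain ⟨n, rfl⟩ : ∃ n, K = n + 4 := ⟨K - 4, by omega⟩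
  have h0 : (N : ℚ) ≠ 0 := by
    have : N ≠ 0 := by omega
    exact_mod_cast this
  have h1 : (N : ℚ) + 3 ≠ 0 := by positivity
  have h2 := tele (N : ℚ) h0 h1 n fun i _ h => by
    have h' : (3 * (1 + i) : ℕ) = N := by
      have : ((3 * (1 + i) : ℕ) : ℚ) = (N : ℚ) := by
        push_cast
        linarith
      exact_mod_cast this
    omega
  have h4 : Al (N : ℚ) n = 0 := by
    refine prod_eq_zero (i := (N - 1) / 2) (mem_range.2 (by omega)) ?_
    have h5 : ((2 * ((N - 1) / 2) + 1 : ℕ) : ℚ) = N := by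
      have : 2 * ((N - 1) / 2) + 1 = N := by omega
      exact_mod_cast this
    push_cast at h5
    rw [h5, sub_self]
  rw [hP (n + 4) (by omega), Gc, h4] at h2
  have h6 : 4 * (N : ℚ) * ((N : ℚ) + 3) ≠ 0 := mul_ne_zero (mul_ne_zero (by norm_num) h0) h1
  push_cast
  have h7 : 4 * (N : ℚ) * ((N : ℚ) + 3) * ∑ k ∈ range (n + 4), tm ((N : ℚ) + 6) k = 0 := by
    linear_combination h2
  exact (mul_eq_zero.1 h7).resolve_left h6

theorem eval1 (j : ℕ) : ∀ K, 6 * j + 1 ≤ K → ∑ k ∈ range K, tm ((6 * j + 1 : ℕ) : ℚ) k = 0 := by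
  induction j with
  | zero =>
    intro K _
    refine sum_eq_zero fun k _ => ?_
    rcases Nat.eq_zero_or_pos k with rfl | hk
    · exact tm_0 _
    · exact tm_zero (l := 0) (by omega) (by omega) (by norm_num)
  | succ j ih =>
    have := stepN (6 * j + 1) (by omega) (by omega) ih
    rwa [show 6 * j + 1 + 6 = 6 * (j + 1) + 1 by ring] at this

theorem eval5 (j : ℕ) : ∀ K, 6 * j + 5 ≤ K → ∑ k ∈ range K, tm ((6 * j + 5 : ℕ) : ℚ) k = 0 := by
  induction j with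
  | zero =>
    intro K hK
    have h1 : ∑ k ∈ range 3, tm ((6 * 0 + 5 : ℕ) : ℚ) k = ∑ k ∈ range K, tm ((6 * 0 + 5 : ℕ) : ℚ) k := by
      refine sum_subset (range_subset_range.2 (by omega)) fun k _ hk => ?_
      rw [mem_range] at hk
      exact tm_zero (l := 2) (by omega) (by omega) (by norm_num)
    rw [← h1]
    simp only [sum_range_succ, sum_range_zero, tm_0, tm_1, tm_2]
    rw [dn, dn]
    simp only [prod_range_succ, prod_range_zero]
    norm_num
  | succ j ih =>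
    have := stepN (6 * j + 5) (by omega) (by omega) ih
    rwa [show 6 * j + 5 + 6 = 6 * (j + 1) + 5 by ring] at this

theorem evalN (N : ℕ) (hodd : N % 2 = 1) (h3 : N % 3 ≠ 0) : ∑ k ∈ range N, tm (N : ℚ) k = 0 := by
  rcases (by omega : N % 6 = 1 ∨ N % 6 = 5) with h | h
  · have h1 : N = 6 * (N / 6) + 1 := by omega
    rw [h1]
    exact eval1 _ _ le_rfl
  · have h1 : N = 6 * (N / 6) + 5 := by omega
    rw [h1]
    exact eval5 _ _ le_rfl

theorem stepM (M : ℕ) (hodd : M % 2 = 1) (h7 : 7 ≤ M) (hP : ∑ k ∈ range M, tm ((3 * M : ℕ) : ℚ) k = 0) :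
    ∑ k ∈ range (M + 2), tm ((3 * (M + 2) : ℕ) : ℚ) k = 0 := by
  obtain ⟨n, hn⟩ : ∃ n, M = n + 4 := ⟨M - 4, by omega⟩
  have h0 : ((3 * M : ℕ) : ℚ) ≠ 0 := by
    have : 3 * M ≠ 0 := by omega
    exact_mod_cast this
  have h1 : ((3 * M : ℕ) : ℚ) + 3 ≠ 0 := by positivity
  have h2 := tele ((3 * M : ℕ) : ℚ) h0 h1 n fun i hi h => by
    have h' : (3 * (1 + i) : ℕ) = 3 * M := by
      have : ((3 * (1 + i) : ℕ) : ℚ) = ((3 * M : ℕ) : ℚ) := by
        push_cast at h ⊢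
        linarith
      exact_mod_cast this
    omega
  have h4 : Bh ((3 * M : ℕ) : ℚ) n = 0 := by
    refine prod_eq_zero (i := (M - 3) / 2) (mem_range.2 (by omega)) ?_
    have h5 : ((2 * ((M - 3) / 2 + n + 5) + 1 : ℕ) : ℚ) = ((3 * M : ℕ) : ℚ) := by
      have : 2 * ((M - 3) / 2 + n + 5) + 1 = 3 * M := by omega
      exact_mod_cast this
    push_cast at h5 ⊢
    rw [h5, sub_self]
  rw [← hn, hP, Gc, h4] at h2
  have h6 : 4 * ((3 * M : ℕ) : ℚ) * (((3 * M : ℕ) : ℚ) + 3) ≠ 0 := mul_ne_zero (mul_ne_zero (by norm_num) h0) h1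
  have h7' : 4 * ((3 * M : ℕ) : ℚ) * (((3 * M : ℕ) : ℚ) + 3) * ∑ k ∈ range M, tm (((3 * M : ℕ) : ℚ) + 6) k = 0 := by
    linear_combination h2
  have h8 := (mul_eq_zero.1 h7').resolve_left h6
  have e : ((3 * M : ℕ) : ℚ) + 6 = ((3 * (M + 2) : ℕ) : ℚ) := by push_cast; ring
  rw [e] at h8
  have e2 : ((2 * ((3 * M + 5) / 2) + 1 : ℕ) : ℚ) = ((3 * (M + 2) : ℕ) : ℚ) := by
    have : 2 * ((3 * M + 5) / 2) + 1 = 3 * (M + 2) := by omega
    exact_mod_cast this
  rw [sum_range_succ, sum_range_succ, h8, tm_zero (l := (3 * M + 5) / 2) (k := M) (by omega) (by omega)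
    (by push_cast at e2 ⊢; exact e2), tm_zero (l := (3 * M + 5) / 2) (k := M + 1) (by omega) (by omega)
    (by push_cast at e2 ⊢; exact e2)]
  norm_num

theorem evalM (M : ℕ) (hodd : M % 2 = 1) (h5 : 5 ≤ M) : ∑ k ∈ range M, tm ((3 * M : ℕ) : ℚ) k = 0 := by
  obtain ⟨j, hj⟩ : ∃ j, M = 2 * j + 5 := ⟨(M - 5) / 2, by omega⟩
  subst hj
  rcases Nat.eq_zero_or_pos j with rfl | hj0
  · decide +kernel
  · obtain ⟨i, rfl⟩ : ∃ i, j = i + 1 := ⟨j - 1, by omega⟩
    clear hodd h5 hj0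
    induction i with
    | zero => decide +kernel
    | succ i ih =>
      have := stepM (2 * (i + 1) + 5) (by omega) (by omega) ih
      rwa [show 2 * (i + 1) + 5 + 2 = 2 * (i + 1 + 1) + 5 by ring] at this

variable {p : ℕ} [hp : Fact p.Prime]

/-- the family -/
def AA (p : ℕ) (u : ℚ) : ℚ := ∑ k ∈ range p, tm u k

theorem lin_tm (h3 : 3 < p) {k : ℕ} (hk : k < p) : Lin p (fun u => tm u k) := by
  have h1 : Lin p (fun u => pk u k) := Lin.prod fun l _ => lin_lin l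
  have h2 : Lin p (fun _ : ℚ => 2 * (k : ℚ)) := by
    have h := Lin.affine (p := p) (a := 2 * (k : ℚ)) (b := 0)
      (mul_mem (by exact_mod_cast nat_mem (p := p) 2) (nat_mem k)) (zero_mem _)
    have e : (fun u : ℚ => 2 * (k : ℚ) + 0 * u) = fun _ => 2 * (k : ℚ) := by funext u; ring
    rwa [e] at h
  exact (h2.mul h1).mul (lin_dn h3 hk)

theorem lin_AA (h3 : 3 < p) : Lin p (AA p) := Lin.sum fun _ hk => lin_tm h3 (mem_range.1 hk)

theorem AA_zero (h3 : 3 < p) : EQ p 2 (AA p 0) 0 := by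
  have u2 : U p (2 : ℚ) := by exact_mod_cast U_nat (p := p) (k := 2) (by norm_num) (by omega)
  have h2 : p % 2 = 1 := by
    rcases hp.out.eq_two_or_odd with h | h <;> omega
  have h3' : p % 3 ≠ 0 := by
    intro h
    have := (Nat.prime_dvd_prime_iff_eq Nat.prime_three hp.out).1 (Nat.dvd_of_mod_eq_zero h)
    omega
  have h4 := interp13 (lin_AA (p := p) h3) u2
  have h5 : AA p p = 0 := evalN p h2 h3'
  have h5' : 5 ≤ p := by omega
  have h6 : AA p (3 * p) = 0 := by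
    have := evalM p h2 h5'
    push_cast at this
    exact this
  rw [h5, h6] at h4
  simpa using h4

theorem tm_at_zero (k : ℕ) : tm 0 k = ((4 * k).choose (2 * k + 1) : ℚ) * ((2 * k).choose k : ℚ) / 48 ^ k := by
  rcases Nat.eq_zero_or_pos k with rfl | hk
  · simp [tm]
  · have h1 := pt_0 k
    have h2 : ∏ l ∈ range (2 * k), (2 * (l : ℚ) + 1 - 0) = pk 0 k * (2 * (k : ℚ) + 1) := by
      rw [pk, ← prod_erase_mul _ _ (mem_range.2 (by omega : k < 2 * k))]
      ring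
    rw [pt, h2] at h1
    have h3 : (((4 * k).choose (2 * k + 1) : ℕ) : ℚ) * (2 * (k : ℚ) + 1) = ((4 * k).choose (2 * k) : ℚ) * (2 * k) := by
      have := Nat.choose_succ_right_eq (4 * k) (2 * k)
      rw [show 4 * k - 2 * k = 2 * k by omega] at this
      exact_mod_cast this
    have h4 : (2 * (k : ℚ) + 1) ≠ 0 := by positivity
    have h5 : (48 : ℚ) ^ k ≠ 0 := by positivity
    rw [tm]
    apply mul_left_cancel₀ h4
    have h6 : (2 * (k : ℚ) + 1) * (((4 * k).choose (2 * k + 1) : ℚ) * ((2 * k).choose k : ℚ) / 48 ^ k) =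
        (((4 * k).choose (2 * k + 1) : ℕ) : ℚ) * (2 * (k : ℚ) + 1) * ((2 * k).choose k : ℚ) / 48 ^ k := by ring
    rw [h6, h3]
    linear_combination 2 * (k : ℚ) * h1

end Pool.Agent.U697.A48
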