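import Pool.Agent.Q164.E8.LD
import Pool.Agent.Q121.E8.K2
import Pool.Agent.Q182.E8.CB

set_option autoImplicit false

/-!
# A symmetric polynomial modulo `p²` and its value at a supersingular point
-/

namespace Pool.Agent.U697.T8

open Finset Pool.Agent.Q267.CDE Pool.Agent.Q267.MW Pool.Agent.Q267.E8

/-- alternating sums and differences -/
theorem alt_succ (f : ℕ → ℚ) (n : ℕ) :
    ∑ k ∈ range (n + 1 + 1), (-1) ^ k * (((n + 1).choose k : ℕ) : ℚ) * f k =
      ∑ k ∈ range (n + 1), (-1) ^ k * ((n.choose k : ℕ) : ℚ) * (f k - f (k + 1)) := by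
  rw [sum_range_succ']
  have h1 : ∀ k ∈ range (n + 1), (-1 : ℚ) ^ (k + 1) * (((n + 1).choose (k + 1) : ℕ) : ℚ) * f (k + 1) =
      -((-1) ^ k * ((n.choose k : ℕ) : ℚ) * f (k + 1)) +
        (-1) ^ (k + 1) * ((n.choose (k + 1) : ℕ) : ℚ) * f (k + 1) := by
    intro k _
    rw [Nat.choose_succ_succ]
    push_cast
    ring
  rw [sum_congr rfl h1, sum_add_distrib, sum_neg_distrib]
  have h2 : ∑ k ∈ range (n + 1), (-1 : ℚ) ^ k * ((n.choose k : ℕ) : ℚ) * (f k - f (k + 1)) =
      ∑ k ∈ range (n + 1), (-1 : ℚ) ^ k * ((n.choose k : ℕ) : ℚ) * f k -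
        ∑ k ∈ range (n + 1), (-1 : ℚ) ^ k * ((n.choose k : ℕ) : ℚ) * f (k + 1) := by
    rw [← sum_sub_distrib]
    exact sum_congr rfl fun k _ => by ring
  rw [h2]
  have h3 : ∑ k ∈ range (n + 1), (-1 : ℚ) ^ k * ((n.choose k : ℕ) : ℚ) * f k =
      ∑ k ∈ range (n + 1), (-1 : ℚ) ^ (k + 1) * ((n.choose (k + 1) : ℕ) : ℚ) * f (k + 1) + f 0 := by
    have h4 := sum_range_succ' (fun k => (-1 : ℚ) ^ k * ((n.choose k : ℕ) : ℚ) * f k) (n + 1)
    rw [sum_range_succ] at h4
    simp only [Nat.choose_succ_self, Nat.cast_zero, mul_zero, zero_mul, add_zero, pow_zero,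
      Nat.choose_zero_right, Nat.cast_one, one_mul] at h4
    exact h4
  rw [h3]
  simp only [pow_zero, Nat.choose_zero_right, Nat.cast_one, one_mul]
  ring

/-- the Beta integral `i! j! / (i+j+1)!` -/
noncomputable def X (i j : ℕ) : ℚ := (i.factorial : ℚ) * j.factorial / (i + j + 1).factorial

theorem X_rec (i j : ℕ) : X i j - X (i + 1) j = X i (j + 1) := by
  unfold X
  rw [show i + 1 + j + 1 = (i + j + 1) + 1 by ring, show i + (j + 1) + 1 = (i + j + 1) + 1 by ring,
    Nat.factorial_succ (i + j + 1), Nat.factorial_succ i, Nat.factorial_succ j]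
  have h1 : ((i + j + 1).factorial : ℚ) ≠ 0 := by exact_mod_cast Nat.factorial_ne_zero _
  have h2 : ((i : ℚ) + j + 1 + 1) ≠ 0 := by positivity
  push_cast
  field_simp
  ring

theorem altX (n : ℕ) : ∀ i j : ℕ,
    ∑ k ∈ range (n + 1), (-1) ^ k * ((n.choose k : ℕ) : ℚ) * X (i + k) j = X i (j + n) := by
  induction n with
  | zero => intro i j; simp
  | succ n ih =>
    intro i j
    rw [alt_succ (fun k => X (i + k) j)]
    have : ∀ k ∈ range (n + 1), (-1 : ℚ) ^ k * ((n.choose k : ℕ) : ℚ) * (X (i + k) j - X (i + (k + 1)) j) =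
        (-1) ^ k * ((n.choose k : ℕ) : ℚ) * X (i + k) (j + 1) := by
      intro k _
      rw [← add_assoc, X_rec]
    rw [sum_congr rfl this, ih i (j + 1)]
    congr 1
    ring

/-- the coefficients of `C(3m+1,m) ₂F₁(-m,m+1;2m+2;z)` up to sign -/
def e (m k : ℕ) : ℕ := (m + k).choose k * (3 * m + 1).choose (m - k)

theorem e_X (k b c : ℕ) :
    ((b + c).choose b : ℚ) * (e (k + b + c) k : ℚ) =
      ((3 * (k + b + c) + 1).factorial : ℚ) / (((k + b + c).factorial : ℚ) * (k + b + c).factorial * c.factorial *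
        (k + b).factorial) * (((k + b).choose k : ℕ) : ℚ) * X (k + b + c + k) (k + b + c) := by
  unfold e X
  rw [show k + b + c - k = b + c by omega,
    show 3 * (k + b + c) + 1 = (b + c) + (k + b + c + k + (k + b + c) + 1) by ring]
  rw [Nat.cast_mul, Nat.cast_add_choose ℚ, Nat.cast_add_choose ℚ, Nat.cast_add_choose ℚ,
    show ((k + b + c + k).choose k : ℚ) = ((k + b + c + k).factorial : ℚ) /
      ((k + b + c).factorial * k.factorial) by
      rw [← Nat.choose_symm_add, Nat.cast_add_choose ℚ]]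
  have h1 : ((k + b + c).factorial : ℚ) ≠ 0 := by exact_mod_cast Nat.factorial_ne_zero _
  have h2 : ((b + c).factorial : ℚ) ≠ 0 := by exact_mod_cast Nat.factorial_ne_zero _
  have h3 : ((k + b).factorial : ℚ) ≠ 0 := by exact_mod_cast Nat.factorial_ne_zero _
  have h4 : ((k).factorial : ℚ) ≠ 0 := by exact_mod_cast Nat.factorial_ne_zero _
  have h5 : ((b).factorial : ℚ) ≠ 0 := by exact_mod_cast Nat.factorial_ne_zero _
  have h6 : ((c).factorial : ℚ) ≠ 0 := by exact_mod_cast Nat.factorial_ne_zero _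
  have h7 : ((k + b + c + k + (k + b + c) + 1).factorial : ℚ) ≠ 0 := by
    exact_mod_cast Nat.factorial_ne_zero _
  field_simp

theorem e_id (m n : ℕ) (hn : n ≤ m) :
    ∑ k ∈ range (n + 1), (-1 : ℤ) ^ k * (((m - k).choose (n - k) : ℕ) : ℤ) * (e m k : ℤ) = (e m n : ℤ) := by
  obtain ⟨c, rfl⟩ := Nat.exists_eq_add_of_le hn
  set K : ℚ := ((3 * (n + c) + 1).factorial : ℚ) / (((n + c).factorial : ℚ) * (n + c).factorial * c.factorial *
        n.factorial) with hK
  have key : ∀ k ∈ range (n + 1), (((n + c - k).choose (n - k) : ℕ) : ℚ) * (e (n + c) k : ℚ) =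
      K * ((n.choose k : ℕ) : ℚ) * X (n + c + k) (n + c) := by
    intro k hk
    obtain ⟨b, hb⟩ := Nat.exists_eq_add_of_le (Nat.lt_succ_iff.1 (mem_range.1 hk))
    have := e_X k b c
    rw [← hb] at this
    rw [show n + c - k = b + c by omega, show n - k = b by omega]
    exact this
  have h1 : ((∑ k ∈ range (n + 1), (-1 : ℤ) ^ k * (((n + c - k).choose (n - k) : ℕ) : ℤ) * (e (n + c) k : ℤ) : ℤ) : ℚ) =
      K * ∑ k ∈ range (n + 1), (-1) ^ k * ((n.choose k : ℕ) : ℚ) * X (n + c + k) (n + c) := by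
    push_cast
    rw [mul_sum]
    refine sum_congr rfl fun k hk => ?_
    rw [mul_assoc, key k hk]
    ring
  have h2 : (e (n + c) n : ℚ) = K * X (n + c + n) (n + c) := by
    have := key n (mem_range.2 (Nat.lt_succ_self n))
    rw [Nat.sub_self, Nat.choose_zero_right, Nat.choose_self, Nat.cast_one, one_mul, mul_one] at this
    exact this
  have h3 : X (n + c + n) (n + c) = X (n + c) (n + c + n) := by
    unfold X
    rw [show n + c + n + (n + c) + 1 = n + c + (n + c + n) + 1 by ring, mul_comm (((n + c + n).factorial : ℚ))]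
  rw [altX, ← h3, ← h2] at h1
  exact_mod_cast h1

/-- **The symmetry**: `∑ (-1)^k e_k z^k = ∑ e_k z^k (1-z)^(m-k)`. -/
theorem sym (S : Type) [CommRing S] (m : ℕ) (z : S) :
    ∑ k ∈ range (m + 1), (e m k : S) * z ^ k * (1 - z) ^ (m - k) =
      ∑ k ∈ range (m + 1), (-1) ^ k * (e m k : S) * z ^ k := by
  have h1 : ∀ k ∈ range (m + 1), (e m k : S) * z ^ k * (1 - z) ^ (m - k) =
      ∑ n ∈ range (m + 1), (if k ≤ n then (-1) ^ (n - k) * (((m - k).choose (n - k) : ℕ) : S) * (e m k : S) else 0) *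
        z ^ n := by
    intro k hk
    obtain ⟨a, rfl⟩ := Nat.exists_eq_add_of_le (Nat.lt_succ_iff.1 (mem_range.1 hk))
    rw [Nat.add_sub_cancel_left, show k + a + 1 = k + (a + 1) by ring, sum_range_add,
      sum_eq_zero (s := range k), zero_add, show 1 - z = -z + 1 by ring, add_pow, mul_sum]
    · refine sum_congr rfl fun j _ => ?_
      rw [if_pos (Nat.le_add_right k j), Nat.add_sub_cancel_left, one_pow, mul_one, neg_pow z, pow_add]
      ring
    · intro n hn
      rw [if_neg (by have := mem_range.1 hn; omega), zero_mul]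
  rw [sum_congr rfl h1, sum_comm]
  refine sum_congr rfl fun n hn => ?_
  have hn' : n ≤ m := Nat.lt_succ_iff.1 (mem_range.1 hn)
  rw [← sum_mul]
  congr 1
  have h2 : ∑ k ∈ range (n + 1), (if k ≤ n then (-1) ^ (n - k) * (((m - k).choose (n - k) : ℕ) : S) * (e m k : S) else 0) =
      ∑ k ∈ range (m + 1), (if k ≤ n then (-1) ^ (n - k) * (((m - k).choose (n - k) : ℕ) : S) * (e m k : S) else 0) := by
    refine sum_subset (range_subset_range.2 (by omega)) fun k _ hk => ?_
    rw [if_neg (by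
      intro h
      exact hk (mem_range.2 (by omega)))]
  rw [← h2]
  have h3 := congrArg (Int.cast : ℤ → S) (e_id m n hn')
  push_cast at h3
  rw [← h3, mul_sum]
  refine sum_congr rfl fun k hk => ?_
  have hk' : k ≤ n := Nat.lt_succ_iff.1 (mem_range.1 hk)
  rw [if_pos hk']
  have h4 : (-1 : S) ^ n * (-1) ^ k = (-1) ^ (n - k) := by
    obtain ⟨b, rfl⟩ := Nat.exists_eq_add_of_le hk'
    rw [Nat.add_sub_cancel_left, pow_add, mul_right_comm, ← mul_pow]
    simp
  rw [← h4]
  ring

/-- the congruence `16^k e_k = C(3m+1,m) C(p-1,k) C(2k,k)²` modulo `p²` -/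
theorem cong (p m k : ℕ) [Fact p.Prime] (hpm : p = 2 * m + 1) (hk : k ≤ m) :
    (e m k : R p) * 16 ^ k = (((3 * m + 1).choose m : ℕ) : R p) * (((p - 1).choose k : ℕ) : R p) *
      ((k.centralBinom : ℕ) : R p) ^ 2 := by
  have hp2 := (Fact.out : p.Prime).two_le
  induction k with
  | zero => simp [e]
  | succ k ih =>
    have ih := ih (by omega)
    have hpp := p_sq p
    have h1' := congrArg (Nat.cast : ℕ → R p) (Nat.succ_mul_centralBinom_succ k)
    obtain ⟨v, hv⟩ : ∃ v, m = k + 1 + v := ⟨m - (k + 1), by omega⟩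
    have h2' := congrArg (Nat.cast : ℕ → R p) (Nat.add_one_mul_choose_eq (m + k) k)
    have h3 := Nat.choose_succ_right_eq (3 * m + 1) v
    rw [show 3 * m + 1 - v = 2 * m + k + 2 by omega] at h3
    have h3' := congrArg (Nat.cast : ℕ → R p) h3
    have h4 := Nat.choose_succ_right_eq (p - 1) k
    rw [show p - 1 - k = m + 1 + v by omega] at h4
    have h4' := congrArg (Nat.cast : ℕ → R p) h4
    have hu : IsUnit ((k : R p) + 1) := by
      have := isUnit_nat p (k + 1) (by omega) (by omega)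
      push_cast at this
      exact this
    have hP := congrArg (Nat.cast : ℕ → R p) (show p = 2 * (k + 1 + v) + 1 by omega)
    have hM := congrArg (Nat.cast : ℕ → R p) hv
    have hw : IsUnit (2 * (m : R p) + k + 2) := by
      apply isUnit_of_red
      have h5 : (2 * (m : R p) + k + 2) = (p : R p) + ((k + 1 : ℕ) : R p) := by
        rw [hP]; push_cast; rw [hM]; push_cast; ring
      rw [h5, map_add, map_natCast, map_natCast, ZMod.natCast_self, zero_add]
      exact cast_ne p (k + 1) (by omega) (by omega)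
    unfold e at ih ⊢
    rw [show m - k = v + 1 by omega] at ih
    rw [show m - (k + 1) = v by omega, show m + (k + 1) = m + k + 1 by ring]
    push_cast at h1' h2' h3' h4' hP hM ih ⊢
    apply ((hu.mul hu).mul (hu.mul hw)).mul_right_cancel
    rw [pow_succ (16 : R p)]
    rw [hM] at h2' h3' h4' ⊢
    rw [hP] at hpp
    set c : R p := ((k.centralBinom : ℕ) : R p)
    set c' : R p := (((k + 1).centralBinom : ℕ) : R p)
    set a : R p := (((m + k).choose k : ℕ) : R p)
    set a' : R p := (((m + k + 1).choose (k + 1) : ℕ) : R p)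
    set b : R p := (((3 * m + 1).choose (v + 1) : ℕ) : R p)
    set b' : R p := (((3 * m + 1).choose v : ℕ) : R p)
    set d : R p := (((p - 1).choose k : ℕ) : R p)
    set d' : R p := (((p - 1).choose (k + 1) : ℕ) : R p)
    set D : R p := (((3 * m + 1).choose m : ℕ) : R p)
    set s : R p := 16 ^ k
    set κ : R p := (k : R p)
    set V : R p := (v : R p)
    have hpp' : (2 * (κ + 1 + V) + 1) ^ 2 = 0 := hpp
    have e1 : a' * (κ + 1) = (κ + 1 + V + κ + 1) * a := by linear_combination -h2'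
    have e2 : b' * (2 * (κ + 1 + V) + κ + 2) = b * (V + 1) := by linear_combination -h3'
    have e3 : d' * (κ + 1) = d * (κ + 1 + V + 1 + V) := by linear_combination h4'
    have e4 : c' * (κ + 1) = 2 * (2 * κ + 1) * c := by linear_combination h1'
    calc a' * b' * (s * 16) * ((κ + 1) * (κ + 1) * ((κ + 1) * (2 * (κ + 1 + V) + κ + 2)))
        = 16 * s * (κ + 1) ^ 2 * (a' * (κ + 1)) * (b' * (2 * (κ + 1 + V) + κ + 2)) := by ring
      _ = 16 * (κ + 1) ^ 2 * (κ + 1 + V + κ + 1) * (V + 1) * (a * b * s) := by rw [e1, e2]; ring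
      _ = 16 * (κ + 1) ^ 2 * (κ + 1 + V + κ + 1) * (V + 1) * (D * d * c ^ 2) := by rw [ih]
      _ = D * (d * (κ + 1 + V + 1 + V)) * (2 * (2 * κ + 1) * c) ^ 2 * (2 * (κ + 1 + V) + κ + 2) := by
          linear_combination 4 * D * d * c ^ 2 * ((κ + 1) ^ 2 - (2 * κ + 1) ^ 2) * hpp'
      _ = D * (d' * (κ + 1)) * (c' * (κ + 1)) ^ 2 * (2 * (κ + 1 + V) + κ + 2) := by rw [e3, e4]
      _ = D * d' * c' ^ 2 * ((κ + 1) * (κ + 1) * ((κ + 1) * (2 * (κ + 1 + V) + κ + 2))) := by ring

end Pool.Agent.U697.T8
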