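import Pool.Agent.U697.T8

set_option autoImplicit false

/-!
# The value at the supersingular point, and the integer sum
-/

namespace Pool.Agent.U697.T8

open Finset Pool.Agent.Q267.CDE Pool.Agent.Q267.MW Pool.Agent.Q267.E8

theorem exists_half (p : ℕ) [Fact p.Prime] (hp2 : p ≠ 2) : ∃ h : R p, 2 * h = 1 := by
  have h2 : IsUnit (2 : R p) := by
    have := isUnit_nat p 2 (by norm_num) (lt_of_le_of_ne (Fact.out : p.Prime).two_le (Ne.symm hp2))
    exact_mod_cast this
  exact h2.exists_right_inv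

/-- `2` is a square modulo `p²` -/
theorem exists_sqrt (p : ℕ) [Fact p.Prime] (h8 : p % 8 = 7) : ∃ r : R p, r ^ 2 = 2 := by
  have hp2 : p ≠ 2 := by omega
  obtain ⟨h, hh⟩ := exists_half p hp2
  have h2 : IsSquare (2 : ZMod p) := (ZMod.exists_sq_eq_two_iff hp2).mpr (Or.inr h8)
  obtain ⟨s, hs⟩ := h2
  have h20 : (2 : ZMod p) ≠ 0 := by
    have := cast_ne p 2 (by norm_num) (lt_of_le_of_ne (Fact.out : p.Prime).two_le (Ne.symm hp2))
    exact_mod_cast this
  have hs0 : s ≠ 0 := by
    rintro rfl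
    exact h20 (by rw [hs]; ring)
  set t : R p := lift p s with ht
  have htu : IsUnit t := isUnit_of_red p (by rw [ht, red_lift]; exact hs0)
  obtain ⟨v, hv⟩ := htu.exists_right_inv
  obtain ⟨y, hy⟩ := red_eq_of p (t ^ 2) 2 (by rw [map_pow, ht, red_lift, map_ofNat, hs]; ring)
  refine ⟨t - p * (y * v * h), ?_⟩
  have hpp := p_sq p
  linear_combination hy - 2 * p * y * h * hv - p * y * hh + y ^ 2 * v ^ 2 * h ^ 2 * hpp

/-- `(-1)^k C(m+k,k) = C(m,k)` modulo `p = 2m+1` -/
theorem modp1 (p m k : ℕ) [Fact p.Prime] (hpm : p = 2 * m + 1) (hk : k ≤ m) :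
    (-1) ^ k * (((m + k).choose k : ℕ) : ZMod p) = ((m.choose k : ℕ) : ZMod p) := by
  induction k with
  | zero => simp
  | succ k ih =>
    have ih := ih (by omega)
    obtain ⟨v, hv⟩ : ∃ v, m = k + 1 + v := ⟨m - (k + 1), by omega⟩
    have h2 := Nat.choose_succ_right_eq m k
    rw [show m - k = v + 1 by omega] at h2
    have h2' := congrArg (Nat.cast : ℕ → ZMod p) h2
    have h3' := congrArg (Nat.cast : ℕ → ZMod p) (Nat.add_one_mul_choose_eq (m + k) k)
    have hu : ((k : ZMod p) + 1) ≠ 0 := by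
      have := cast_ne p (k + 1) (by omega) (by omega)
      push_cast at this
      exact this
    have hP := congrArg (Nat.cast : ℕ → ZMod p) (show p = 2 * (k + 1 + v) + 1 by omega)
    have hM := congrArg (Nat.cast : ℕ → ZMod p) hv
    rw [CharP.cast_eq_zero] at hP
    push_cast at h2' h3' hP hM
    rw [hM] at h3'
    rw [show m + (k + 1) = m + k + 1 by ring]
    apply mul_right_cancel₀ hu
    rw [pow_succ (-1 : ZMod p)]
    linear_combination -h2' + (-1) ^ k * h3' + (v + 1) * ih +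
      (-1) ^ k * (((m + k).choose k : ℕ) : ZMod p) * hP

/-- `C(2k,k) = (-4)^k C(m,k)` modulo `p = 2m+1` -/
theorem modp2 (p m k : ℕ) [Fact p.Prime] (hpm : p = 2 * m + 1) (hk : k ≤ m) :
    ((k.centralBinom : ℕ) : ZMod p) = (-4) ^ k * ((m.choose k : ℕ) : ZMod p) := by
  induction k with
  | zero => simp
  | succ k ih =>
    have ih := ih (by omega)
    obtain ⟨v, hv⟩ : ∃ v, m = k + 1 + v := ⟨m - (k + 1), by omega⟩
    have h2 := Nat.choose_succ_right_eq m k
    rw [show m - k = v + 1 by omega] at h2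
    have h2' := congrArg (Nat.cast : ℕ → ZMod p) h2
    have h1' := congrArg (Nat.cast : ℕ → ZMod p) (Nat.succ_mul_centralBinom_succ k)
    have hu : ((k : ZMod p) + 1) ≠ 0 := by
      have := cast_ne p (k + 1) (by omega) (by omega)
      push_cast at this
      exact this
    have hP := congrArg (Nat.cast : ℕ → ZMod p) (show p = 2 * (k + 1 + v) + 1 by omega)
    rw [CharP.cast_eq_zero] at hP
    push_cast at h1' h2' hP
    apply mul_right_cancel₀ hu
    rw [pow_succ (-4 : ZMod p)]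
    linear_combination h1' + 4 * (-4) ^ k * h2' + 2 * (2 * (k : ZMod p) + 1) * ih -
      2 * (-4) ^ k * ((m.choose k : ℕ) : ZMod p) * hP

/-- `C(p-1,k) = (-1)^k` modulo `p` -/
theorem modp3 (p k : ℕ) [Fact p.Prime] (hk : k < p) :
    (((p - 1).choose k : ℕ) : ZMod p) = (-1) ^ k := by
  have hp2 := (Fact.out : p.Prime).two_le
  induction k with
  | zero => simp
  | succ k ih =>
    have ih := ih (by omega)
    obtain ⟨v, hv⟩ : ∃ v, p = k + 1 + 1 + v := ⟨p - (k + 1 + 1), by omega⟩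
    have h2 := Nat.choose_succ_right_eq (p - 1) k
    rw [show p - 1 - k = v + 1 by omega] at h2
    have h2' := congrArg (Nat.cast : ℕ → ZMod p) h2
    have hu : ((k : ZMod p) + 1) ≠ 0 := by
      have := cast_ne p (k + 1) (by omega) (by omega)
      push_cast at this
      exact this
    have hP := congrArg (Nat.cast : ℕ → ZMod p) hv
    rw [CharP.cast_eq_zero] at hP
    push_cast at h2' hP
    apply mul_right_cancel₀ hu
    rw [pow_succ (-1 : ZMod p)]
    linear_combination h2' + ((v : ZMod p) + 1) * ih - (-1) ^ k * hP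

/-- Modulo `p`: `∑ C(m,k)² (2(r-1))^k = 0` if `r² = 2` and `m` is odd. -/
theorem ss (p m : ℕ) [Fact p.Prime] (hpm : p = 2 * m + 1) (hm : Odd m) (r : ZMod p) (hr : r ^ 2 = 2) :
    Kf m (2 * (r - 1)) = 0 := by
  have hp2 := (Fact.out : p.Prime).two_le
  have hm0 : 0 < m := hm.pos
  have h20 : (2 : ZMod p) ≠ 0 := by
    have := cast_ne p 2 (by norm_num) (by omega)
    exact_mod_cast this
  have hr0 : r ≠ 0 := by
    rintro rfl
    exact h20 (by rw [← hr]; ring)
  have h1 := Pool.Agent.Q164.E8.ld (ZMod p) m (r - 1) (2 : ZMod p)⁻¹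
    (by rw [show 1 + (r - 1) = r by ring, hr, mul_inv_cancel₀ h20])
  have h2 : Ef m (-((r - 1) * (2 : ZMod p)⁻¹)) = Kf m (2 * (r - 1)) := by
    unfold Ef Kf
    refine sum_congr rfl fun k hk => ?_
    rw [modp2 p m k hpm (Nat.lt_succ_iff.1 (mem_range.1 hk))]
    have h3 : (2 * (r - 1)) ^ k = (-4) ^ k * (-((r - 1) * (2 : ZMod p)⁻¹)) ^ k := by
      rw [← mul_pow]
      congr 1
      have := mul_inv_cancel₀ h20
      linear_combination -2 * (r - 1) * this
    rw [h3]
    ring
  rw [h2, show 1 + (r - 1) = r by ring, show 2 * m = p - 1 by omega, ZMod.pow_card_sub_one_eq_one hr0,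
    one_mul] at h1
  have h4 := Pool.Agent.Q121.E8.k2 (ZMod p) m ((r - 1) ^ 2)
  have h5 : Kr m ((r - 1) ^ 2) = Kf m ((r - 1) ^ 2) := by
    unfold Kr Kf
    rw [← sum_range_reflect]
    refine sum_congr rfl fun k hk => ?_
    have hk' := Nat.lt_succ_iff.1 (mem_range.1 hk)
    rw [show m + 1 - 1 - k = m - k by omega, Nat.choose_symm hk', show m - (m - k) = k by omega]
    have h6 := modp1 p m (m - k) hpm (Nat.sub_le m k)
    rw [Nat.choose_symm hk'] at h6
    linear_combination ((m.choose k : ℕ) : ZMod p) * ((r - 1) ^ 2) ^ k * h6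
  rw [h5, hm.neg_one_pow, show 1 - (r - 1) ^ 2 = 2 * (r - 1) by linear_combination -hr, h1] at h4
  have h7 : (2 : ZMod p) * Kf m (2 * (r - 1)) = 0 := by linear_combination h4
  exact (mul_eq_zero.1 h7).resolve_left h20

/-- the polynomial -/
def Psi {S : Type} [CommRing S] (m : ℕ) (z : S) : S := ∑ k ∈ range (m + 1), (-1) ^ k * (e m k : S) * z ^ k

theorem Psi_red (p m : ℕ) [Fact p.Prime] (hpm : p = 2 * m + 1) (z : R p) :
    red p (Psi m z) = (((3 * m + 1).choose m : ℕ) : ZMod p) * Kf m (red p z) := by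
  have hp2 := (Fact.out : p.Prime).two_le
  unfold Psi Kf
  rw [map_sum, mul_sum]
  refine sum_congr rfl fun k hk => ?_
  have hk' := Nat.lt_succ_iff.1 (mem_range.1 hk)
  have h1 := congrArg (red p) (cong p m k hpm hk')
  rw [map_mul, map_mul, map_mul, map_pow, map_pow, red_nat, red_nat, red_nat, red_nat, map_ofNat,
    modp3 p k (by omega), modp2 p m k hpm hk'] at h1
  rw [map_mul, map_mul, map_pow, map_pow, red_nat, map_neg, map_one]
  have h16 : ((16 : ZMod p) ^ k) ≠ 0 := by
    apply pow_ne_zero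
    have h20 : (2 : ZMod p) ≠ 0 := by
      have := cast_ne p 2 (by norm_num) (by omega)
      exact_mod_cast this
    rw [show (16 : ZMod p) = 2 ^ 4 by norm_num]
    exact pow_ne_zero _ h20
  apply mul_right_cancel₀ h16
  have h3 : ((-4 : ZMod p) ^ k) ^ 2 = 16 ^ k := by
    rw [← pow_mul, mul_comm, pow_mul]; norm_num
  have h4 : ((-1 : ZMod p) ^ k) * (-1) ^ k = 1 := by
    rw [← mul_pow]; norm_num
  linear_combination (-1) ^ k * red p z ^ k * h1 + (((3 * m + 1).choose m : ℕ) : ZMod p) * (-1) ^ k * (-1) ^ k *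
    ((m.choose k : ℕ) : ZMod p) ^ 2 * red p z ^ k * h3 + (((3 * m + 1).choose m : ℕ) : ZMod p) *
    ((m.choose k : ℕ) : ZMod p) ^ 2 * red p z ^ k * 16 ^ k * h4

theorem Psi_eq (p m : ℕ) [Fact p.Prime] (hpm : p = 2 * m + 1) (x : R p) :
    (((3 * m + 1).choose m : ℕ) : R p) * ∑ k ∈ range p, (((p - 1).choose k : ℕ) : R p) *
      ((k.centralBinom : ℕ) : R p) ^ 2 * x ^ k = Psi m (-16 * x) := by
  unfold Psi
  rw [mul_sum]
  symm
  refine sum_subset_zero_on_sdiff (range_subset_range.2 (by omega)) (fun k hk => ?_) fun k hk => ?_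
  · rw [mem_sdiff, mem_range, mem_range] at hk
    rw [(Pool.Agent.Q182.E8.cb p m k hpm).2 (by omega) hk.1, mul_zero, zero_mul, mul_zero]
  · have h1 := cong p m k hpm (Nat.lt_succ_iff.1 (mem_range.1 hk))
    have h2 : (-16 * x) ^ k = (-1) ^ k * 16 ^ k * x ^ k := by
      rw [← mul_pow, ← mul_pow]; congr 1; ring
    have h4 : ((-1 : R p) ^ k) * (-1) ^ k = 1 := by
      rw [← mul_pow]; norm_num
    rw [h2]
    linear_combination x ^ k * h1 + (e m k : R p) * 16 ^ k * x ^ k * h4

/-- The two conjugate values are equal. -/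
theorem Psi_conj (p m : ℕ) [Fact p.Prime] (hpm : p = 2 * m + 1) (hm : Odd m) (r : R p) (hr : r ^ 2 = 2) :
    Psi m (-2 * (1 + r)) = Psi m (-2 * (1 - r)) := by
  have h1 : Psi m (-2 * (1 + r)) = ((1 + r) ^ 2) ^ m * Psi m (-2 * (1 - r)) := by
    have h2 := sym (R p) m (-2 * (1 + r))
    unfold Psi
    rw [← h2, mul_sum]
    refine sum_congr rfl fun k hk => ?_
    obtain ⟨a, ha⟩ := Nat.exists_eq_add_of_le (Nat.lt_succ_iff.1 (mem_range.1 hk))
    have h3 : (-2 * (1 + r)) ^ k = ((1 + r) ^ 2) ^ k * (-1) ^ k * (-2 * (1 - r)) ^ k := by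
      rw [← mul_pow, ← mul_pow]
      congr 1
      linear_combination (2 * (1 + r)) * hr
    rw [h3, show 1 - -2 * (1 + r) = (1 + r) ^ 2 by linear_combination -hr, ha, Nat.add_sub_cancel_left,
      pow_add ((1 + r) ^ 2)]
    ring
  have h2 : red p (1 + r) ≠ 0 := by
    intro h3
    have h4 := congrArg (red p) (show (1 + r) * (1 - r) = -1 by linear_combination -hr)
    rw [map_mul, h3, zero_mul, map_neg, map_one] at h4
    exact one_ne_zero (neg_eq_zero.1 h4.symm)
  obtain ⟨z, hz⟩ := red_eq_of p ((1 + r) ^ (p - 1)) 1 (by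
    rw [map_pow, ZMod.pow_card_sub_one_eq_one h2, map_one])
  have h5 : red p (Psi m (-2 * (1 - r))) = 0 := by
    rw [Psi_red p m hpm, show red p (-2 * (1 - r)) = 2 * (red p r - 1) by
      rw [map_mul, map_neg, map_sub, map_one, map_ofNat]; ring, ss p m hpm hm (red p r) (by
      rw [← map_pow, hr, map_ofNat]), mul_zero]
  have h6 : (p : R p) * Psi m (-2 * (1 - r)) = 0 := by
    rw [p_mul_eq p _ 0 (by rw [h5, map_zero]), mul_zero]
  rw [h1, ← pow_mul, show 2 * m = p - 1 by omega, hz]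
  linear_combination z * h6

/-- The Pell numbers. -/
def pell : ℕ → ℤ
  | 0 => 0
  | 1 => 1
  | n + 2 => 2 * pell (n + 1) + pell n

theorem pell_eq {S : Type} [CommRing S] (r : S) (hr : r ^ 2 = 2) (n : ℕ) :
    2 * r * (pell n : S) = (1 + r) ^ n - (1 - r) ^ n := by
  induction n using Nat.twoStepInduction with
  | zero => simp [pell]
  | one => simp [pell]; ring
  | more n h1 h2 =>
    rw [pell]
    push_cast
    have e1 : (1 + r) ^ (n + 2) = 2 * (1 + r) ^ (n + 1) + (1 + r) ^ n := by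
      rw [pow_succ, pow_succ]; linear_combination (1 + r) ^ n * hr
    have e2 : (1 - r) ^ (n + 2) = 2 * (1 - r) ^ (n + 1) + (1 - r) ^ n := by
      rw [pow_succ, pow_succ]; linear_combination (1 - r) ^ n * hr
    rw [e1, e2]
    linear_combination 2 * h2 + h1

/-- the numerator of `T(p)` -/
def N (p : ℕ) : ℤ := ∑ k ∈ range p, ((p - 1).choose k : ℤ) * pell k * 8 ^ (p - 1 - k) * ((2 * k).choose k : ℤ) ^ 2

theorem N_zero (p : ℕ) [Fact p.Prime] (h8 : p % 8 = 7) : (N p : R p) = 0 := by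
  have hp2 := (Fact.out : p.Prime).two_le
  obtain ⟨m, hpm⟩ : ∃ m, p = 2 * m + 1 := ⟨p / 2, by omega⟩
  have hm : Odd m := by rw [Nat.odd_iff]; omega
  obtain ⟨r, hr⟩ := exists_sqrt p h8
  have h20 : (2 : ZMod p) ≠ 0 := by
    have := cast_ne p 2 (by norm_num) (by omega)
    exact_mod_cast this
  have hu8 : IsUnit (8 : R p) := by
    apply isUnit_of_red
    rw [map_ofNat, show (8 : ZMod p) = 2 ^ 3 by norm_num]
    exact pow_ne_zero _ h20
  obtain ⟨u, hu⟩ := hu8.exists_right_inv
  have hur : IsUnit (2 * r) := by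
    apply isUnit_of_red
    intro h
    have h1 : red p ((2 * r) * r) = 0 := by rw [map_mul, h, zero_mul]
    rw [show (2 * r) * r = 4 by linear_combination 2 * hr, map_ofNat, show (4 : ZMod p) = 2 ^ 2 by norm_num] at h1
    exact pow_ne_zero _ h20 h1
  have hD : IsUnit ((((3 * m + 1).choose m : ℕ) : R p)) := by
    apply isUnit_of_red
    rw [red_nat]
    intro h
    rw [ZMod.natCast_eq_zero_iff] at h
    have h1 := Choose.choose_modEq_choose_mod_mul_choose_div_nat (n := 3 * m + 1) (k := m) (p := p)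
    rw [show (3 * m + 1) % p = m by
        rw [show 3 * m + 1 = m + p by omega, Nat.add_mod_right, Nat.mod_eq_of_lt (by omega)],
      show (3 * m + 1) / p = 1 by
        rw [show 3 * m + 1 = m + p by omega, Nat.add_div_right _ (by omega), Nat.div_eq_of_lt (by omega)],
      Nat.mod_eq_of_lt (show m < p by omega), Nat.div_eq_of_lt (show m < p by omega), Nat.choose_self,
      Nat.choose_zero_right, one_mul] at h1
    have h2 := (Nat.modEq_zero_iff_dvd.2 h).symm.trans h1
    have h3 := (Nat.modEq_iff_dvd' (by omega)).1 h2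
    have := Nat.le_of_dvd (by omega) h3
    omega
  have key : (((3 * m + 1).choose m : ℕ) : R p) * ((2 * r) * (N p : R p)) = 8 ^ (p - 1) *
      (Psi m (-2 * (1 + r)) - Psi m (-2 * (1 - r))) := by
    have e1 := Psi_eq p m hpm (u * (1 + r))
    have e2 := Psi_eq p m hpm (u * (1 - r))
    rw [show -16 * (u * (1 + r)) = -2 * (1 + r) by linear_combination (-2 * (1 + r)) * hu] at e1
    rw [show -16 * (u * (1 - r)) = -2 * (1 - r) by linear_combination (-2 * (1 - r)) * hu] at e2
    rw [← e1, ← e2, ← mul_sub, ← sum_sub_distrib, mul_left_comm (8 ^ (p - 1))]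
    congr 1
    unfold N
    rw [Int.cast_sum, mul_sum, mul_sum]
    refine sum_congr rfl fun k hk => ?_
    obtain ⟨a, ha⟩ : ∃ a, p - 1 = k + a := ⟨p - 1 - k, by have := mem_range.1 hk; omega⟩
    push_cast
    have h3 : (8 : R p) ^ k * u ^ k = 1 := by rw [← mul_pow, hu, one_pow]
    rw [ha, Nat.add_sub_cancel_left, pow_add (8 : R p), mul_pow u, mul_pow u, ← Nat.centralBinom_eq_two_mul_choose]
    have h4 := pell_eq r hr k
    linear_combination (((k + a).choose k : ℕ) : R p) * 8 ^ a * ((k.centralBinom : ℕ) : R p) ^ 2 * h4 -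
      (((k + a).choose k : ℕ) : R p) * 8 ^ a * ((k.centralBinom : ℕ) : R p) ^ 2 * ((1 + r) ^ k - (1 - r) ^ k) * h3
  rw [Psi_conj p m hpm hm r hr, sub_self, mul_zero] at key
  have h1 := (hD.mul_right_eq_zero).1 key
  exact (hur.mul_right_eq_zero).1 h1

end Pool.Agent.U697.T8
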