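import Mathlib

set_option autoImplicit false

/-!
# A closed form for weighted sums of squares of generalized central trinomial coefficients

`T_n = ∑ C(n,k) β^(n-k) c^k C(2k,k)`, `M_n = ∑_{k<n} C(n,k+1) β^(n-1-k) c^k C(2k,k)`. Then `M_{n+1} = β M_n + T_n`,
`(n+1) T_{n+1} + 2 c M_{n+1} = (n+1) (β + 4 c) T_n` and with `b = β + 2 c`
`b ∑_{j<n} (8 c j + 4 c + b) T_j² β^(2(n-1-j)) = 2 b c M_n² + 2 c M_n T_n + n T_n²`.
-/

namespace Pool.Agent.U697.TR

open Finset

section ring

variable {R : Type} [CommRing R] (β c : R)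

/-- generalized central trinomial coefficient -/
def Tn (n : ℕ) : R := ∑ k ∈ range (n + 1), ((n.choose k : ℕ) : R) * β ^ (n - k) * c ^ k * ((k.centralBinom : ℕ) : R)

/-- the companion -/
def Mn (n : ℕ) : R :=
  ∑ k ∈ range n, ((n.choose (k + 1) : ℕ) : R) * β ^ (n - (k + 1)) * c ^ k * ((k.centralBinom : ℕ) : R)

theorem cb_rec (k : ℕ) : ((k : R) + 1) * (((k + 1).centralBinom : ℕ) : R) =
    2 * (2 * (k : R) + 1) * ((k.centralBinom : ℕ) : R) := by
  have h := congrArg (Nat.cast : ℕ → R) (Nat.succ_mul_centralBinom_succ k)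
  push_cast at h
  exact h

theorem beta_Mn (n : ℕ) : β * Mn β c n =
    ∑ k ∈ range (n + 1), ((n.choose (k + 1) : ℕ) : R) * β ^ (n - k) * c ^ k * ((k.centralBinom : ℕ) : R) := by
  rw [sum_range_succ, Nat.choose_succ_self, Nat.cast_zero, zero_mul, zero_mul, zero_mul, add_zero, Mn, mul_sum]
  refine sum_congr rfl fun k hk => ?_
  have := mem_range.1 hk
  rw [show n - k = n - (k + 1) + 1 by omega, pow_succ]
  ring

theorem beta_Tn (n : ℕ) : β * Tn β c n = β ^ (n + 1) +
    ∑ k ∈ range (n + 1), ((n.choose (k + 1) : ℕ) : R) * β ^ (n - k) * c ^ (k + 1) *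
      (((k + 1).centralBinom : ℕ) : R) := by
  rw [sum_range_succ, Nat.choose_succ_self, Nat.cast_zero, zero_mul, zero_mul, zero_mul, add_zero, Tn,
    sum_range_succ', mul_add, add_comm, mul_sum]
  congr 1
  · simp [pow_succ, mul_comm]
  · refine sum_congr rfl fun k hk => ?_
    have := mem_range.1 hk
    rw [show n - k = n - (k + 1) + 1 by omega, pow_succ]
    ring

theorem Mn_succ (n : ℕ) : Mn β c (n + 1) = β * Mn β c n + Tn β c n := by
  rw [beta_Mn, Mn, Tn, ← sum_add_distrib]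
  refine sum_congr rfl fun k _ => ?_
  rw [Nat.choose_succ_succ, show n + 1 - (k + 1) = n - k by omega]
  push_cast
  ring

theorem Tn_succ (n : ℕ) : ((n : R) + 1) * Tn β c (n + 1) + 2 * c * Mn β c (n + 1) =
    ((n : R) + 1) * ((β + 4 * c) * Tn β c n) := by
  have h1 : Tn β c (n + 1) = β ^ (n + 1) + ∑ k ∈ range (n + 1), (((n + 1).choose (k + 1) : ℕ) : R) * β ^ (n - k) *
      c ^ (k + 1) * (((k + 1).centralBinom : ℕ) : R) := by
    rw [Tn, sum_range_succ', add_comm]
    congr 1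
    · simp
    · refine sum_congr rfl fun k _ => ?_
      rw [show n + 1 - (k + 1) = n - k by omega]
  have h2 : Mn β c (n + 1) = ∑ k ∈ range (n + 1), (((n + 1).choose (k + 1) : ℕ) : R) * β ^ (n - k) * c ^ k *
      ((k.centralBinom : ℕ) : R) := by
    rw [Mn]
    refine sum_congr rfl fun k _ => ?_
    rw [show n + 1 - (k + 1) = n - k by omega]
  have h5 := beta_Tn β c n
  have h6 : ((n : R) + 1) * (∑ k ∈ range (n + 1), (((n + 1).choose (k + 1) : ℕ) : R) * β ^ (n - k) *
      c ^ (k + 1) * (((k + 1).centralBinom : ℕ) : R)) + 2 * c * (∑ k ∈ range (n + 1),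
      (((n + 1).choose (k + 1) : ℕ) : R) * β ^ (n - k) * c ^ k * ((k.centralBinom : ℕ) : R)) =
      ((n : R) + 1) * (∑ k ∈ range (n + 1), ((n.choose (k + 1) : ℕ) : R) * β ^ (n - k) * c ^ (k + 1) *
      (((k + 1).centralBinom : ℕ) : R)) + ((n : R) + 1) * (4 * c) * Tn β c n := by
    rw [Tn, mul_sum, mul_sum, mul_sum, mul_sum, ← sum_add_distrib, ← sum_add_distrib]
    refine sum_congr rfl fun k _ => ?_
    have h3 := congrArg (Nat.cast : ℕ → R) (Nat.add_one_mul_choose_eq n k)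
    have h4 := cb_rec (R := R) k
    rw [Nat.choose_succ_succ] at h3 ⊢
    push_cast at h3 ⊢
    linear_combination β ^ (n - k) * c ^ (k + 1) * ((((k + 1).centralBinom : ℕ) : R) -
      4 * ((k.centralBinom : ℕ) : R)) * h3 + β ^ (n - k) * c ^ (k + 1) *
      (((n.choose k : ℕ) : R) + ((n.choose (k + 1) : ℕ) : R)) * h4
  rw [h1, h2]
  linear_combination h6 - ((n : R) + 1) * h5

/-- The closed form. -/
theorem closed (n : ℕ) : (β + 2 * c) * ∑ j ∈ range n, (8 * c * j + 6 * c + β) * Tn β c j ^ 2 * β ^ (2 * (n - 1 - j)) =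
    2 * (β + 2 * c) * c * Mn β c n ^ 2 + 2 * c * Mn β c n * Tn β c n + n * Tn β c n ^ 2 := by
  induction n with
  | zero => simp [Mn]
  | succ n ih =>
    have h1 : ∑ j ∈ range (n + 1), (8 * c * j + 6 * c + β) * Tn β c j ^ 2 * β ^ (2 * (n + 1 - 1 - j)) =
        β ^ 2 * (∑ j ∈ range n, (8 * c * j + 6 * c + β) * Tn β c j ^ 2 * β ^ (2 * (n - 1 - j))) +
          (8 * c * n + 6 * c + β) * Tn β c n ^ 2 := by
      rw [sum_range_succ, mul_sum, Nat.add_sub_cancel, Nat.sub_self, mul_zero, pow_zero, mul_one]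
      congr 1
      refine sum_congr rfl fun j hj => ?_
      have := mem_range.1 hj
      rw [show 2 * (n - j) = 2 * (n - 1 - j) + 2 by omega, pow_add]
      ring
    have h2 := Mn_succ β c n
    have h3 := Tn_succ β c n
    rw [h1]
    push_cast
    rw [h2] at h3 ⊢
    linear_combination β ^ 2 * ih - Tn β c (n + 1) * h3 + (β + 4 * c) * Tn β c n * (- h3)

end ring

end Pool.Agent.U697.TR
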