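import Pool.Agent.U697.TR
import Pool.Agent.U697.T8b

set_option autoImplicit false

/-!
# The values modulo `p`
-/

namespace Pool.Agent.U697.TR

open Finset Pool.Agent.U697.T8

theorem choose_p_zero (p k : ℕ) [hp : Fact p.Prime] (h0 : 0 < k) (hk : k < p) : ((p.choose k : ℕ) : ZMod p) = 0 := by
  rw [ZMod.natCast_eq_zero_iff]
  exact hp.out.dvd_choose_self h0.ne' hk

theorem cb_zero (p m k : ℕ) [hp : Fact p.Prime] (hpm : p = 2 * m + 1) (h1 : m < k) (h2 : k < p) :
    ((k.centralBinom : ℕ) : ZMod p) = 0 := by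
  rw [ZMod.natCast_eq_zero_iff, Nat.centralBinom_eq_two_mul_choose, two_mul]
  exact hp.out.dvd_choose_add h2 h2 (by omega)

theorem cb_p (p : ℕ) [hp : Fact p.Prime] : ((p.centralBinom : ℕ) : ZMod p) = 2 := by
  have h1 := Choose.choose_modEq_choose_mod_mul_choose_div_nat (n := 2 * p) (k := p) (p := p)
  rw [Nat.mul_mod_left, Nat.mod_self, Nat.mul_div_cancel _ hp.out.pos, Nat.div_self hp.out.pos] at h1
  have h2 := (ZMod.natCast_eq_natCast_iff _ _ _).2 h1
  rw [Nat.centralBinom_eq_two_mul_choose, h2]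
  simp

/-- `T_p = b` modulo `p` -/
theorem Tn_p (p : ℕ) [hp : Fact p.Prime] (β c : ZMod p) : Tn β c p = β + 2 * c := by
  rw [Tn, sum_range_succ, Nat.sub_self, Nat.choose_self, cb_p, ZMod.pow_card, pow_zero]
  obtain ⟨n, hn⟩ : ∃ n, p = n + 1 := ⟨p - 1, by have := hp.out.pos; omega⟩
  have h1 : ∑ k ∈ range p, ((p.choose k : ℕ) : ZMod p) * β ^ (p - k) * c ^ k * ((k.centralBinom : ℕ) : ZMod p) =
      ((p.choose 0 : ℕ) : ZMod p) * β ^ (p - 0) * c ^ 0 * (((0 : ℕ).centralBinom : ℕ) : ZMod p) := by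
    refine sum_eq_single 0 (fun k hk hk0 => ?_) fun h => ?_
    · rw [choose_p_zero p k (Nat.pos_of_ne_zero hk0) (mem_range.1 hk)]
      ring
    · exact absurd (mem_range.2 hp.out.pos) h
  rw [h1, Nat.sub_zero, ZMod.pow_card]
  simp
  ring

/-- `M_p = 0` modulo `p` -/
theorem Mn_p (p m : ℕ) [hp : Fact p.Prime] (hpm : p = 2 * m + 1) (β c : ZMod p) : Mn β c p = 0 := by
  have h2 := hp.out.two_le
  refine sum_eq_zero fun k hk => ?_
  have hk' := mem_range.1 hk
  rcases Nat.lt_or_ge (k + 1) p with h | h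
  · rw [choose_p_zero p (k + 1) (by omega) h]
    ring
  · rw [cb_zero p m k hpm (by omega) hk', mul_zero]

/-- `T_{p-1} = (d/p)` modulo `p` -/
theorem Tn_pred (p m : ℕ) [hp : Fact p.Prime] (hpm : p = 2 * m + 1) (β c : ZMod p) :
    Tn β c (p - 1) = (β * (β + 4 * c)) ^ m := by
  have h2 := hp.out.two_le
  have h1 : Tn β c (p - 1) = ∑ k ∈ range (m + 1), (((p - 1).choose k : ℕ) : ZMod p) * β ^ (p - 1 - k) * c ^ k *
      ((k.centralBinom : ℕ) : ZMod p) := by
    symm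
    refine sum_subset (range_subset_range.2 (by omega)) fun k hk hk' => ?_
    rw [mem_range] at hk hk'
    rw [cb_zero p m k hpm (by omega) (by omega), mul_zero]
  rw [h1, mul_pow, add_comm β, add_pow, mul_sum]
  refine sum_congr rfl fun k hk => ?_
  have hk' := Nat.lt_succ_iff.1 (mem_range.1 hk)
  rw [modp3 p k (by omega), modp2 p m k hpm hk', show p - 1 - k = m + (m - k) by omega, pow_add, mul_pow 4 c,
    show (-4 : ZMod p) ^ k = (-1) ^ k * 4 ^ k by rw [← mul_pow]; norm_num]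
  have h4 : ((-1 : ZMod p) ^ k) * (-1) ^ k = 1 := by
    rw [← mul_pow]; norm_num
  linear_combination β ^ m * β ^ (m - k) * c ^ k * 4 ^ k * ((m.choose k : ℕ) : ZMod p) * h4

theorem map_Tn {R S : Type} [CommRing R] [CommRing S] (f : R →+* S) (β c : R) (n : ℕ) :
    f (Tn β c n) = Tn (f β) (f c) n := by
  unfold Tn
  simp

theorem map_Mn {R S : Type} [CommRing R] [CommRing S] (f : R →+* S) (β c : R) (n : ℕ) :
    f (Mn β c n) = Mn (f β) (f c) n := by
  unfold Mn
  simp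

/-- The congruence for the integer sum. -/
theorem main (p : ℕ) [hp : Fact p.Prime] (hp2 : p ≠ 2) (β c : ℤ) (hb : ¬ (p : ℤ) ∣ β + 2 * c) :
    (p : ℤ) ^ 2 ∣ ∑ j ∈ range p, (8 * c * j + 6 * c + β) * Tn β c j ^ 2 * β ^ (2 * (p - 1 - j)) -
      p * ((β + 4 * c) * legendreSym p (β * (β + 4 * c))) := by
  obtain ⟨m, hpm⟩ : ∃ m, p = 2 * m + 1 := by
    have := hp.out.eq_two_or_odd
    exact ⟨p / 2, by omega⟩
  have hpp := hp.out.pos
  have h1 := closed β c p
  have h2 := Tn_succ β c (p - 1)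
  rw [Nat.sub_add_cancel hpp] at h2
  have h2' : (((p - 1 : ℕ) : ℤ) + 1) = p := by
    push_cast [Nat.cast_sub hpp]
    ring
  rw [h2'] at h2
  have h3 : (p : ℤ) ∣ Mn β c p := by
    rw [← ZMod.intCast_zmod_eq_zero_iff_dvd]
    have := map_Mn (Int.castRingHom (ZMod p)) β c p
    rw [Mn_p p m hpm] at this
    exact this
  have h4 : (p : ℤ) ∣ Tn β c p - (β + 2 * c) := by
    rw [← ZMod.intCast_zmod_eq_zero_iff_dvd]
    have := map_Tn (Int.castRingHom (ZMod p)) β c p
    rw [Tn_p p] at this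
    push_cast
    simp only [eq_intCast] at this
    rw [this, sub_self]
  have h5 : (p : ℤ) ∣ Tn β c (p - 1) - legendreSym p (β * (β + 4 * c)) := by
    rw [← ZMod.intCast_zmod_eq_zero_iff_dvd]
    have := map_Tn (Int.castRingHom (ZMod p)) β c (p - 1)
    rw [Tn_pred p m hpm] at this
    simp only [eq_intCast] at this
    rw [Int.cast_sub, this, legendreSym.eq_pow, show p / 2 = m by omega]
    push_cast
    rw [sub_self]
  obtain ⟨x, hx⟩ := h3
  obtain ⟨y, hy⟩ := h4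
  obtain ⟨z, hz⟩ := h5
  have hcop : IsCoprime ((p : ℤ) ^ 2) (β + 2 * c) := by
    apply IsCoprime.pow_left
    exact (Prime.coprime_iff_not_dvd (Nat.prime_iff_prime_int.1 hp.out)).2 hb
  apply hcop.dvd_of_dvd_mul_left
  set S := ∑ j ∈ range p, (8 * c * j + 6 * c + β) * Tn β c j ^ 2 * β ^ (2 * (p - 1 - j))
  set L := legendreSym p (β * (β + 4 * c))
  refine ⟨2 * (β + 2 * c) * c * x ^ 2 + (β + 4 * c) * (y * Tn β c (p - 1) + (β + 2 * c) * z), ?_⟩
  rw [hx] at h1 h2
  linear_combination h1 + Tn β c p * h2 + p * (β + 4 * c) * Tn β c (p - 1) * hy + p * (β + 4 * c) * (β + 2 * c) * hz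

end Pool.Agent.U697.TR
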